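import Mathlib
import Pool.Agent.P.MP_13df43_gt.SW.Main

open Filter Topology

namespace Pool.Agent.Results.MP_13df43_gt.SplittingWeight

open Pool.Agent.P.MP_13df43_gt.SW

/-- There is a Hausdorff group with compact closures of countable subgroups on which player P has
no stationary winning strategy in the game Ssp, and the least size of a base of such a group is
the splitting number. -/
theorem result :
    IsLeast
      {κ : Cardinal.{0} | ∃ (G : Type) (_ : Group G) (_ : TopologicalSpace G),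
        IsTopologicalGroup G ∧ T2Space G ∧
        (∃ B : Set (Set G), TopologicalSpace.IsTopologicalBasis B ∧ Cardinal.mk B ≤ κ) ∧
        (∀ H : Subgroup G, Countable H → IsCompact (closure (H : Set G))) ∧
        ¬ ∃ s : {U : Set G // IsOpen U ∧ U.Nonempty} → G,
          (∀ U, s U ∈ U.1) ∧
          ∀ U : ℕ → {U : Set G // IsOpen U ∧ U.Nonempty},
            ∃ (φ : ℕ → ℕ) (a : G), StrictMono φ ∧
              Tendsto (fun k => s (U (φ k))) atTop (𝓝 a)}
      (sInf {κ : Cardinal.{0} | ∃ 𝒮 : Set (Set ℕ), Cardinal.mk 𝒮 = κ ∧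
        ∀ A : Set ℕ, A.Infinite → ∃ S ∈ 𝒮, (A ∩ S).Infinite ∧ (A \ S).Infinite}) := by
  have hne : {κ : Cardinal.{0} | ∃ 𝒮 : Set (Set ℕ), Cardinal.mk 𝒮 = κ ∧
      ∀ A : Set ℕ, A.Infinite → ∃ S ∈ 𝒮, (A ∩ S).Infinite ∧ (A \ S).Infinite}.Nonempty :=
    ⟨_, Set.univ, rfl, fun A hA => (exists_split hA).imp fun S hS => ⟨trivial, hS⟩⟩
  constructor
  · obtain ⟨𝒮, h𝒮, hs⟩ := csInf_mem hne
    by_contra hcon
    obtain ⟨A, hA, hA'⟩ := (weight_iff _).1 (fun G _ _ hG hT hB hK =>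
      by_contra fun h => hcon ⟨G, _, _, hG, hT, hB, hK, h⟩) 𝒮 h𝒮.le
    obtain ⟨S, hS, h1, h2⟩ := hs A hA
    exact (hA' S hS).elim h1 h2
  · rintro κ ⟨G, _, _, _, _, hB, hK, hno⟩
    by_contra hlt
    refine hno ((weight_iff κ).2 (fun 𝒮 h𝒮 => by_contra fun hA => hlt ?_) G hB hK)
    refine le_trans (csInf_le' ?_) h𝒮
    refine ⟨𝒮, rfl, fun A hA' => by_contra fun hS => hA ⟨A, hA', fun S hS' => ?_⟩⟩
    exact by_contra fun h => hS ⟨S, hS', fun h1 => h (Or.inl h1), fun h2 => h (Or.inr h2)⟩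

end Pool.Agent.Results.MP_13df43_gt.SplittingWeight
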